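import Pool.Agent.L7h5.SP.Stm
import Pool.Agent.L7h10.RQ.Add

/-! Part REL of project SP: the partial zeta functions for `𝔣 P` from those for `𝔣`, at `0`. -/

set_option autoImplicit false
set_option linter.style.haveILetI false

namespace Pool.Agent.L7h40.SP
open NumberField Module IntermediateField
open Pool.Agent.K4H33.SK (Qbar GQ Fixes IsZeta cnt_prime hasSum_shift isZeta_deriv)
open Pool.Agent.K4H33.SK.Stmt (Sub Ideals nrm Cop IsArtin cnt)
open Pool.Agent.L7h5.SP

theorem s_REL : S_REL := by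
  intro F H' _ 𝔣 P art hFH hart hP hP0 hPf Z hZ σ ZP hσ hZP
  have hart' := hart.down
  have hρ : Fixes F (art P)⁻¹ := Pool.Agent.K4H33.SK.Fixes.inv (hart'.fix P hPf)
  set ρ : GQ := (art P)⁻¹ with hρdef
  have hPn : Ideal.absNorm P ≠ 0 := by
    rw [Ne, Ideal.absNorm_eq_zero_iff]
    exact hP0
  have hPn' : (Ideal.absNorm P : ℂ) ≠ 0 := Nat.cast_ne_zero.2 hPn
  have hd : Differentiable ℂ (fun s : ℂ => (Ideal.absNorm P : ℂ) ^ (-s)) :=
    (differentiable_id.neg).const_cpow (Or.inl hPn')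
  have e1 := hZ σ hσ
  have e2 := hZ (ρ * σ) (Pool.Agent.K4H33.SK.Fixes.mul hρ hσ)
  have hn : ({1}ᶜ : Set ℂ) ∈ nhds (0 : ℂ) := isOpen_compl_singleton.mem_nhds (by simp)
  have d1 := (e1.1.differentiableAt hn).hasDerivAt
  have d2 := (e2.1.differentiableAt hn).hasDerivAt
  have d3 : HasDerivAt (fun s : ℂ => (Ideal.absNorm P : ℂ) ^ (-s))
      (-(Real.log (nrm F P) : ℂ)) 0 := by
    have h := (hasDerivAt_neg' (0 : ℂ)).const_cpow (c := (Ideal.absNorm P : ℂ))
      (Or.inl hPn')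
    have h2 : (Real.log (nrm F P) : ℂ) = Complex.log (Ideal.absNorm P : ℂ) := by
      rw [← Complex.natCast_log]
    rw [h2]
    convert h using 1
    simp
  have key : IsZeta (cnt F H' (𝔣 * P) art σ)
      (fun s => Z σ s - (Ideal.absNorm P : ℂ) ^ (-s) * Z (ρ * σ) s) := by
    refine ⟨e1.1.sub (hd.differentiableOn.mul e2.1), ?_⟩
    intro s hs
    have h3 := (e1.2 s hs).sub (hasSum_shift hPn (e2.2 s hs))
    refine (LSeriesHasSum_congr s _ (fun {n} _ => ?_)).1 h3
    have h7 := cnt_prime (L := H') hart' le_rfl (fun _ h => h) hP hP0 hPf σ n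
    rw [Pi.sub_apply]
    have h8 : (cnt F H' 𝔣 art σ n : ℂ) = (cnt F H' (𝔣 * P) art σ n : ℂ) +
        ((if Ideal.absNorm P ∣ n then cnt F H' 𝔣 art ((art P)⁻¹ * σ) (n / Ideal.absNorm P)
          else 0 : ℕ) : ℂ) := by
      rw [← Nat.cast_add]
      exact congrArg _ h7
    rw [h8]
    push_cast
    split_ifs <;> ring
  have hu := isZeta_deriv hZP key (fun n _ => rfl)
  refine ⟨?_, ?_⟩
  · rw [hu.2]
    simp only [neg_zero, Complex.cpow_zero, one_mul]
  · rw [hu.1]
    have h5' := (d1.sub (d3.mul d2)).deriv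
    refine Eq.trans h5' ?_
    rw [neg_zero, Complex.cpow_zero, one_mul]
    ring

end Pool.Agent.L7h40.SP
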