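import Pool.Agent.L7h5.SP.Stm
import Pool.Agent.K4H33.SK.Gal

/-! Part REPS of project SP: representatives of the automorphisms fixing `H` modulo those fixing
`H'`. -/

set_option autoImplicit false
set_option linter.style.haveILetI false

namespace Pool.Agent.L7h40.SP
open NumberField Module IntermediateField
open Pool.Agent.K4H33.SK
open Pool.Agent.K4H33.SK.Stmt (Sub Ideals nrm Cop)
open Pool.Agent.L7h10.RQ (IsAbelian)
open Pool.Agent.L7h5.SP

theorem s_REPS : S_REPS := by
  classical
  intro F H H' hA hFH hHH'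
  haveI : FiniteDimensional ℚ H' := hA.fin
  haveI : FiniteDimensional ℚ H :=
    FiniteDimensional.of_injective (IntermediateField.inclusion hHH').toLinearMap
      (IntermediateField.inclusion_injective hHH')
  let M : IntermediateField H Qbar := IntermediateField.extendScalars hHH'
  haveI i4 : FiniteDimensional ℚ M := hA.fin
  haveI i5 : IsScalarTower ℚ H M := inferInstance
  haveI i7 : FiniteDimensional H M := FiniteDimensional.right ℚ H M
  haveI : Algebra.IsAlgebraic H Qbar := Algebra.IsAlgebraic.tower_top (K := ℚ) H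
  haveI : IsAlgClosure H Qbar := ⟨inferInstance, inferInstance⟩
  haveI : Normal H Qbar := IsAlgClosure.normal H Qbar
  haveI i6 : Normal H M := by
    rw [IntermediateField.normal_iff_forall_map_le']
    rintro σ _ ⟨x, hx, rfl⟩
    let τ : GQ := (IntermediateField.fixingSubgroupEquiv H).symm σ
    have hτ : Fixes H τ := fixes_iff.2 ((IntermediateField.fixingSubgroupEquiv H).symm σ).2
    exact hA.normal τ (hτ.mono hFH) x hx
  haveI i8 : IsGalois H M := ⟨⟩
  have hc : Nat.card (M ≃ₐ[H] M) = finrank H M := IsGalois.card_aut_eq_finrank H M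
  haveI i9 : Finite (M ≃ₐ[H] M) := inferInstance
  haveI : Fintype (M ≃ₐ[H] M) := Fintype.ofFinite _
  let r : H.fixingSubgroup →* (M ≃ₐ[H] M) :=
    (AlgEquiv.restrictNormalHom M).comp (IntermediateField.fixingSubgroupEquiv H).toMonoidHom
  have hr : ∀ (g : H.fixingSubgroup) (x : M), ((r g x : M) : Qbar) = (g : GQ) x := by
    intro g x
    exact AlgEquiv.restrictNormal_commutes (IntermediateField.fixingSubgroupEquiv H g) M x
  have hsurj : Function.Surjective r := by
    intro φ
    obtain ⟨ψ, hψ⟩ := AlgEquiv.restrictNormalHom_surjective (F := H) (K₁ := M) Qbar φ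
    refine ⟨(IntermediateField.fixingSubgroupEquiv H).symm ψ, ?_⟩
    simpa [r] using hψ
  choose s hs using hsurj
  have h1 : ∀ g g' : H.fixingSubgroup, r g = r g' ↔ ∀ x ∈ H', (g : GQ) x = (g' : GQ) x := by
    intro g g'
    constructor
    · intro h x hx
      have e1 := hr g ⟨x, hx⟩
      have e2 := hr g' ⟨x, hx⟩
      rw [h] at e1
      exact e1.symm.trans e2
    · intro h
      ext x
      rw [hr, hr]
      exact h x x.2
  have hinj : Function.Injective (fun φ : M ≃ₐ[H] M => ((s φ : H.fixingSubgroup) : GQ)) := by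
    intro φ ψ h
    have : s φ = s ψ := Subtype.ext h
    rw [← hs φ, ← hs ψ, this]
  refine ⟨Finset.univ.image (fun φ : M ≃ₐ[H] M => ((s φ : H.fixingSubgroup) : GQ)), ⟨?_, ?_⟩, ?_⟩
  · intro g hg
    rw [Finset.mem_image] at hg
    obtain ⟨φ, -, rfl⟩ := hg
    exact fixes_iff.2 (s φ).2
  · intro g hg
    let g' : H.fixingSubgroup := ⟨g, fixes_iff.1 hg⟩
    refine ⟨s (r g'), ⟨Finset.mem_image_of_mem _ (Finset.mem_univ _), ?_⟩, ?_⟩
    · exact (h1 g' _).1 (hs (r g')).symm
    · rintro q ⟨hq, hq'⟩
      rw [Finset.mem_image] at hq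
      obtain ⟨φ, -, rfl⟩ := hq
      have : r g' = r (s φ) := (h1 g' (s φ)).2 hq'
      rw [this, hs φ]
  · rw [Finset.card_image_of_injective _ hinj, Finset.card_univ, ← Nat.card_eq_fintype_card, hc]
    have h2 := finrank_mul_finrank ℚ H M
    rw [mul_comm]
    exact h2

end Pool.Agent.L7h40.SP
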