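import Pool.Agent.L7h5.SP.Stm
import Pool.Agent.K4H33.SK.Gal

/-! Part TAU of project SP: the complex conjugation of the second real place. -/

set_option autoImplicit false
set_option linter.style.haveILetI false

namespace Pool.Agent.L7h40.SP
open NumberField Module IntermediateField
open Pool.Agent.K4H33.SK
open Pool.Agent.K4H33.SK.Stmt (Sub Ideals nrm Cop)
open Pool.Agent.L7h10.RQ (IsAbelian)
open Pool.Agent.L7h5.SP

theorem s_TAU : S_TAU := by
  intro ι F H' _ hF hA hreal
  haveI : Normal ℚ F := quad_normal hF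
  haveI : FiniteDimensional ℚ F := FiniteDimensional.of_finrank_pos (by rw [hF]; norm_num)
  -- every embedding is real on `F`
  have hFr : ∀ x ∈ F, ∀ w : Qbar →+* ℂ, (w x).im = 0 := by
    intro x hx w
    obtain ⟨τ, hτ⟩ := exists_lift ι w
    rw [hτ]
    exact hreal _ (hA.le (normal_mem inferInstance τ hx))
  -- a nontrivial automorphism
  have h0 : ∃ g : GQ, ¬ Fixes F g := by
    by_contra hcon
    push Not at hcon
    have hle : F ≤ ⊥ := by
      intro x hx
      exact mem_of_fixed ⊥ (fun σ _ => hcon σ x hx)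
    have : F = ⊥ := le_bot_iff.1 hle
    have h2 : finrank ℚ F = 1 := by rw [this]; exact IntermediateField.finrank_bot
    omega
  obtain ⟨g, hg⟩ := h0
  have hw0 : ∃ x ∈ F, (ι.comp (g : Qbar →+* Qbar)) x ≠ ι x := by
    unfold Fixes at hg
    push Not at hg
    obtain ⟨x, hx, hne⟩ := hg
    exact ⟨x, hx, fun h => hne (ι.injective h)⟩
  refine ⟨hFr, ⟨_, hw0⟩, ?_⟩
  obtain ⟨c, hc⟩ := exists_conj (ι.comp (g : Qbar →+* Qbar))
  have hcF : Fixes F c := by
    intro x hx
    apply (ι.comp (g : Qbar →+* Qbar)).injective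
    rw [hc]
    exact Complex.conj_eq_iff_im.2 (hFr x hx _)
  refine ⟨c, hcF, ?_⟩
  rintro w ⟨x, hx, hne⟩ y hy
  obtain ⟨t, ht⟩ := exists_lift (ι.comp (g : Qbar →+* Qbar)) w
  -- `t` fixes `F`
  have htF : Fixes F t := by
    by_contra hcon
    have h1 : Fixes F (g * t) := quad hF hg hcon
    apply hne
    rw [ht]
    have := h1 x hx
    rw [AlgEquiv.mul_apply] at this
    change ι (g (t x)) = ι x
    rw [this]
  rw [ht, ht]
  rw [← hc]
  rw [hA.comm t c htF hcF y hy]

end Pool.Agent.L7h40.SP
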